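import Pool.Agent.W314.BA.Stm

set_option autoImplicit false

open MeasureTheory Set Filter Topology Real
open scoped ENNReal NNReal

namespace Pool.Agent.W653.BA

open Pool.Agent.W314.BA
open Pool.Agent.W745 (NN FR HM kk dg)

noncomputable section

lemma Fs_measurable (s : ℕ) : Measurable (Fs s) := by
  unfold Fs
  fun_prop

lemma Fs_hh_measurable (s : ℕ) : Measurable (fun g : G => Fs s (hh g)) :=
  (Fs_measurable s).comp hh_measurable

lemma Fs_pos (s : ℕ) {t : ℝ} (ht : 1 ≤ t) : 0 < Fs s t := by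
  unfold Fs
  have : 0 < 1 + t := by linarith
  positivity

lemma Fs_int (n : ℕ) (hn : 1 ≤ n) : IntegrableOn (Fs (n + 1)) (Ici 1) ∧
    ∫ t in Ici (1 : ℝ), Fs (n + 1) t = ((n : ℝ) * 2 ^ n)⁻¹ := by
  have hn0 : (n : ℝ) ≠ 0 := by
    have : (1 : ℝ) ≤ n := by exact_mod_cast hn
    positivity
  have hder : ∀ t ∈ Ici (1 : ℝ),
      HasDerivAt (fun t : ℝ => -((n : ℝ) * (1 + t) ^ n)⁻¹) (Fs (n + 1) t) t := by
    intro t ht
    have ht' : (1 : ℝ) ≤ t := ht
    have hpos : 0 < 1 + t := by linarith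
    have h1 : HasDerivAt (fun t : ℝ => (1 + t) ^ n) (n * (1 + t) ^ (n - 1) * 1) t :=
      ((hasDerivAt_id t).const_add 1).pow n
    have h2 : HasDerivAt (fun t : ℝ => (n : ℝ) * (1 + t) ^ n)
        ((n : ℝ) * (n * (1 + t) ^ (n - 1) * 1)) t := h1.const_mul (n : ℝ)
    have h3 := (h2.inv (by positivity)).neg
    refine h3.congr_deriv ?_
    unfold Fs
    obtain ⟨k, rfl⟩ : ∃ k, n = k + 1 := ⟨n - 1, by omega⟩
    rw [Nat.add_sub_cancel]
    push_cast at hn0 ⊢
    field_simp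
    ring
  have hlim : Tendsto (fun t : ℝ => -((n : ℝ) * (1 + t) ^ n)⁻¹) atTop (𝓝 0) := by
    have h1 : Tendsto (fun t : ℝ => 1 + t) atTop atTop := tendsto_atTop_add_const_left _ _ tendsto_id
    have h2 : Tendsto (fun t : ℝ => (1 + t) ^ n) atTop atTop :=
      (tendsto_pow_atTop (by omega)).comp h1
    have h3 : Tendsto (fun t : ℝ => (n : ℝ) * (1 + t) ^ n) atTop atTop :=
      h2.const_mul_atTop (by positivity)
    have h4 := (tendsto_inv_atTop_zero.comp h3).neg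
    rwa [neg_zero] at h4
  have hnn : ∀ t ∈ Ioi (1 : ℝ), 0 ≤ Fs (n + 1) t := fun t ht =>
    (Fs_pos _ (le_of_lt ht)).le
  constructor
  · rw [integrableOn_Ici_iff_integrableOn_Ioi]
    exact integrableOn_Ioi_deriv_of_nonneg' hder hnn hlim
  · rw [integral_Ici_eq_integral_Ioi, integral_Ioi_of_hasDerivAt_of_nonneg' hder hnn hlim]
    norm_num

lemma Fs_hh (n : ℕ) (hn : 1 ≤ n) : Integrable (fun g : G => Fs (n + 1) (hh g)) hm ∧
    cs (n + 1) = ((n : ℝ) * 2 ^ n)⁻¹ := by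
  obtain ⟨h1, h2⟩ := Fs_int n hn
  constructor
  · have h3 : Integrable (Fs (n + 1)) (hm.map hh) := by
      rw [map_hh]
      exact h1
    exact h3.comp_measurable hh_measurable
  · unfold cs
    rw [← h2, ← map_hh, integral_map hh_measurable.aemeasurable
      (Fs_measurable _).aestronglyMeasurable]

/-- the translated ball is close to the ball -/
lemma sdiff_le (v : G) {x : ℝ} (hx : 1 ≤ x) :
    hm.real ({g | v⁻¹ * g ∈ Bx x} \ Bx x) ≤ x * (hh v + √(hh v ^ 2 - 1) - 1) := by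
  set e : ℝ := hh v + √(hh v ^ 2 - 1) with he
  have h1 := one_le_hh v
  have he1 : 1 ≤ e := by
    have := Real.sqrt_nonneg (hh v ^ 2 - 1)
    linarith
  have hex : x ≤ e * x := by nlinarith
  have hsub : {g | v⁻¹ * g ∈ Bx x} \ Bx x ⊆ Bx (e * x) \ Bx x := by
    rintro g ⟨hg1, hg2⟩
    refine ⟨?_, hg2⟩
    have h2 : hh (v⁻¹ * g) ≤ x := hg1
    have h3 := hh_mul_le' v (v⁻¹ * g)
    rw [mul_inv_cancel_left] at h3
    show hh g ≤ e * x
    exact h3.trans (mul_le_mul_of_nonneg_left h2 (by linarith))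
  have hfin : hm (Bx (e * x)) ≠ ⊤ := by
    rw [hm_Bx (by linarith)]
    exact ENNReal.ofReal_ne_top
  have hfin2 : hm (Bx (e * x) \ Bx x) ≠ ⊤ := (measure_mono sdiff_subset).trans_lt
    (lt_top_iff_ne_top.mpr hfin) |>.ne
  have h4 : hm.real ({g | v⁻¹ * g ∈ Bx x} \ Bx x) ≤ hm.real (Bx (e * x) \ Bx x) :=
    measureReal_mono hsub hfin2
  have h5 : hm.real (Bx (e * x) \ Bx x) = hm.real (Bx (e * x)) - hm.real (Bx x) :=
    measureReal_sdiff (Bx_mono hex) (Bx_meas x) hfin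
  have h6 : ∀ {y : ℝ}, 1 ≤ y → hm.real (Bx y) = y - 1 := by
    intro y hy
    unfold Measure.real
    rw [hm_Bx hy, ENNReal.toReal_ofReal (by linarith)]
  rw [h6 (by linarith), h6 hx] at h5
  linarith

lemma Bx_fin {x : ℝ} (hx : 1 ≤ x) : hm (Bx x) < ⊤ := by
  rw [hm_Bx hx]
  exact ENNReal.ofReal_lt_top

/-- ball averages of translates -/
lemma trans_le (v : G) {x : ℝ} (hx : 2 ≤ x) {φ : G → ℂ} (hφ : Measurable φ)
    (hφ1 : ∀ g, ‖φ g‖ ≤ 1) :
    ‖∫ g, φ g ∂(bm x) - ∫ g, φ (v * g) ∂(bm x)‖ ≤ 4 * (hh v + √(hh v ^ 2 - 1) - 1) := by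
  have hx1 : 1 ≤ x := by linarith
  set A : Set G := {g | v⁻¹ * g ∈ Bx x} with hA
  have hmeasA : MeasurableSet A := (measurable_const_mul v⁻¹) (Bx_meas x)
  have hmA : hm A = hm (Bx x) := (hm_mul_left v⁻¹).measure_preimage (Bx_meas x).nullMeasurableSet
  have hfA : hm A < ⊤ := by
    rw [hmA]
    exact Bx_fin hx1
  have hb : ∀ f : G → ℂ, ∫ g, f g ∂(bm x) = ((x - 1)⁻¹ : ℝ) • ∫ g in Bx x, f g ∂hm := by
    intro f
    unfold bm
    rw [integral_smul_measure, ENNReal.toReal_ofReal (by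
      rw [inv_nonneg]
      linarith)]
  have htr : ∫ g in Bx x, φ (v * g) ∂hm = ∫ g in A, φ g ∂hm := by
    have h1 := (hm_mul_left v).setIntegral_preimage_emb
      (MeasurableEquiv.mulLeft v).measurableEmbedding φ A
    have h2 : (fun h => v * h) ⁻¹' A = Bx x := by
      ext g
      simp only [hA, mem_preimage, mem_ofPred_eq, inv_mul_cancel_left]
    rw [h2] at h1
    exact h1
  have hint : ∀ S : Set G, hm S < ⊤ → IntegrableOn φ S hm := by
    intro S hS
    refine Measure.integrableOn_of_bounded hS.ne hφ.aestronglyMeasurable (M := 1) ?_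
    exact ae_of_all _ hφ1
  rw [hb, hb, htr, ← smul_sub]
  have h3 : ∫ g in Bx x, φ g ∂hm - ∫ g in A, φ g ∂hm =
      ∫ g in Bx x \ A, φ g ∂hm - ∫ g in A \ Bx x, φ g ∂hm := by
    rw [← integral_inter_add_sdiff hmeasA (hint _ (Bx_fin hx1)),
      ← integral_inter_add_sdiff (Bx_meas x) (hint _ hfA), inter_comm A]
    ring
  rw [h3]
  have h4 : hm.real (Bx x \ A) = hm.real (A \ Bx x) := by
    have e1 := measureReal_inter_add_sdiff (μ := hm) (s := Bx x) hmeasA (Bx_fin hx1).ne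
    have e2 := measureReal_inter_add_sdiff (μ := hm) (s := A) (Bx_meas x) hfA.ne
    rw [inter_comm] at e2
    have e3 : hm.real A = hm.real (Bx x) := by
      unfold Measure.real
      rw [hmA]
    linarith
  have h5 := sdiff_le v hx1
  rw [← hA] at h5
  have h6 : ‖∫ g in Bx x \ A, φ g ∂hm‖ ≤ 1 * hm.real (Bx x \ A) :=
    norm_setIntegral_le_of_norm_le_const ((measure_mono sdiff_subset).trans_lt (Bx_fin hx1))
      (fun g _ => hφ1 g)
  have h7 : ‖∫ g in A \ Bx x, φ g ∂hm‖ ≤ 1 * hm.real (A \ Bx x) :=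
    norm_setIntegral_le_of_norm_le_const ((measure_mono sdiff_subset).trans_lt hfA)
      (fun g _ => hφ1 g)
  have h8 := norm_sub_le (∫ g in Bx x \ A, φ g ∂hm) (∫ g in A \ Bx x, φ g ∂hm)
  have hinv : 0 < (x - 1)⁻¹ := by
    rw [inv_pos]
    linarith
  rw [norm_smul, Real.norm_of_nonneg hinv.le]
  have he0 : 0 ≤ hh v + √(hh v ^ 2 - 1) - 1 := by
    have := Real.sqrt_nonneg (hh v ^ 2 - 1)
    have := one_le_hh v
    linarith
  calc (x - 1)⁻¹ * ‖∫ g in Bx x \ A, φ g ∂hm - ∫ g in A \ Bx x, φ g ∂hm‖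
      ≤ (x - 1)⁻¹ * (2 * (x * (hh v + √(hh v ^ 2 - 1) - 1))) :=
        mul_le_mul_of_nonneg_left (by linarith) hinv.le
    _ = (2 * x / (x - 1)) * (hh v + √(hh v ^ 2 - 1) - 1) := by
        field_simp
    _ ≤ 4 * (hh v + √(hh v ^ 2 - 1) - 1) := by
        apply mul_le_mul_of_nonneg_right _ he0
        rw [div_le_iff₀ (by linarith)]
        linarith

lemma lin_bound {t ε : ℝ} (ht : 1 ≤ t) (hε : 0 < ε) :
    4 * (t + √(t ^ 2 - 1) - 1) ≤ ε / 2 + (8 + 16 / ε) * (t - 1) := by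
  have h1 : √(t ^ 2 - 1) ≤ (t - 1) + (ε / 8 + 4 * (t - 1) / ε) := by
    rw [Real.sqrt_le_left (by
      have : 0 ≤ 4 * (t - 1) / ε := div_nonneg (by linarith) hε.le
      linarith)]
    have h2 : 2 * (t - 1) ≤ (ε / 8 + 4 * (t - 1) / ε) ^ 2 := by
      have h3 : (ε / 8) * (4 * (t - 1) / ε) = (t - 1) / 2 := by
        field_simp
        ring
      nlinarith [sq_nonneg (ε / 8 - 4 * (t - 1) / ε)]
    have h4 : 0 ≤ ε / 8 + 4 * (t - 1) / ε := by
      have : 0 ≤ 4 * (t - 1) / ε := div_nonneg (by linarith) hε.le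
      linarith
    nlinarith [mul_nonneg (sub_nonneg.mpr ht) h4]
  have h5 : 16 / ε * (t - 1) = 4 * (4 * (t - 1) / ε) := by ring
  nlinarith

theorem main : TVStmt := by
  intro ε hε
  set K : ℝ := 8 + 16 / ε with hK
  have hK0 : 0 < K := by positivity
  obtain ⟨N, hN⟩ := exists_nat_gt (4 * K / ε)
  -- s = n + 1, n = N + 2
  set n : ℕ := N + 2 with hn
  obtain ⟨hI1, hc1⟩ := Fs_hh n (by omega)
  obtain ⟨hI2, hc2⟩ := Fs_hh (N + 1) (by omega)
  have hnn : ((n : ℕ) : ℝ) = N + 2 := by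
    rw [hn]
    push_cast
    ring
  have hN1 : (((N + 1 : ℕ)) : ℝ) = N + 1 := by push_cast; ring
  have hcpos : 0 < cs (n + 1) := by
    rw [hc1]
    have : (0 : ℝ) < n := by rw [hnn]; positivity
    positivity
  refine ⟨n + 1, by omega, hcpos, fun x hx φ hφ hφ1 => ?_⟩
  have hx1 : 1 < x := by linarith
  have := bm_prob hx1
  -- swap
  have hmeas2 : Measurable (fun p : G × G => (Fs (n + 1) (hh p.2) : ℂ) * φ (p.2 * p.1)) := by
    refine Measurable.mul ?_ ?_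
    · exact Complex.measurable_ofReal.comp ((Fs_hh_measurable (n + 1)).comp measurable_snd)
    · exact hφ.comp (measurable_snd.mul measurable_fst)
  have hint2 : Integrable (fun p : G × G => (Fs (n + 1) (hh p.2) : ℂ) * φ (p.2 * p.1))
      ((bm x).prod hm) := by
    have h1 : Integrable (fun p : G × G => (1 : ℝ) * Fs (n + 1) (hh p.2)) ((bm x).prod hm) :=
      (integrable_const (1 : ℝ)).mul_prod hI1
    refine h1.mono' hmeas2.aestronglyMeasurable (ae_of_all _ fun p => ?_)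
    rw [norm_mul, Complex.norm_real, Real.norm_of_nonneg (Fs_pos _ (one_le_hh _)).le, one_mul]
    exact mul_le_of_le_one_right (Fs_pos _ (one_le_hh _)).le (hφ1 _)
  have hswap : ∫ g, ∫ v, (Fs (n + 1) (hh v) : ℂ) * φ (v * g) ∂hm ∂(bm x) =
      ∫ v, (Fs (n + 1) (hh v) : ℂ) * ∫ g, φ (v * g) ∂(bm x) ∂hm := by
    rw [integral_integral_swap hint2]
    refine integral_congr_ae (ae_of_all _ fun v => ?_)
    exact integral_const_mul _ _
  have hintR : Integrable (fun v : G => (Fs (n + 1) (hh v) : ℂ) * ∫ g, φ (v * g) ∂(bm x)) hm := by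
    refine hint2.integral_prod_right.congr (ae_of_all _ fun v => ?_)
    exact integral_const_mul (Fs (n + 1) (hh v) : ℂ) (fun g => φ (v * g))
  have hintL : Integrable (fun v : G => (Fs (n + 1) (hh v) : ℂ) * ∫ g, φ g ∂(bm x)) hm :=
    (hI1.ofReal (𝕜 := ℂ)).mul_const _
  have hcsC : ∫ v : G, (Fs (n + 1) (hh v) : ℂ) ∂hm = (cs (n + 1) : ℂ) := by
    rw [integral_complex_ofReal (f := fun v : G => Fs (n + 1) (hh v))]
    rfl
  have hcne : (cs (n + 1) : ℂ) ≠ 0 := by exact_mod_cast hcpos.ne'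
  have hdiff : ∫ g, φ g ∂(bm x) - ((cs (n + 1))⁻¹ : ℂ) *
      ∫ g, ∫ v, (Fs (n + 1) (hh v) : ℂ) * φ (v * g) ∂hm ∂(bm x) =
      ((cs (n + 1))⁻¹ : ℂ) * ∫ v, (Fs (n + 1) (hh v) : ℂ) *
        (∫ g, φ g ∂(bm x) - ∫ g, φ (v * g) ∂(bm x)) ∂hm := by
    simp only [mul_sub]
    rw [integral_sub hintL hintR, integral_mul_const, hcsC, hswap, mul_sub,
      inv_mul_cancel_left₀ hcne]
  rw [hdiff, norm_mul, norm_inv, Complex.norm_real, Real.norm_of_nonneg hcpos.le]
  -- pointwise bound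
  have hB : ∀ v : G, ‖(Fs (n + 1) (hh v) : ℂ) *
      (∫ g, φ g ∂(bm x) - ∫ g, φ (v * g) ∂(bm x))‖ ≤
      (ε / 2) * Fs (n + 1) (hh v) + K * (Fs (N + 1 + 1) (hh v) - 2 * Fs (n + 1) (hh v)) := by
    intro v
    have ht := one_le_hh v
    have hF := Fs_pos (n + 1) ht
    rw [norm_mul, Complex.norm_real, Real.norm_of_nonneg hF.le]
    have h1 := (trans_le v hx hφ hφ1).trans (lin_bound ht hε)
    have h2 : Fs (N + 1 + 1) (hh v) - 2 * Fs (n + 1) (hh v) = Fs (n + 1) (hh v) * (hh v - 1) := by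
      have h3 : Fs (N + 1 + 1) (hh v) = Fs (n + 1) (hh v) * (1 + hh v) := by
        unfold Fs
        have hp : 0 < 1 + hh v := by linarith
        rw [hn, show N + 2 + 1 = (N + 1 + 1) + 1 by ring, pow_succ (1 + hh v) (N + 1 + 1)]
        field_simp
      rw [h3]
      ring
    rw [h2]
    calc _ ≤ Fs (n + 1) (hh v) * (ε / 2 + (8 + 16 / ε) * (hh v - 1)) :=
          mul_le_mul_of_nonneg_left h1 hF.le
      _ = _ := by rw [hK]; ring
  have hsubI : Integrable (fun v : G => Fs (N + 1 + 1) (hh v) - 2 * Fs (n + 1) (hh v)) hm :=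
    hI2.sub (hI1.const_mul 2)
  have hgint : Integrable (fun v : G => (ε / 2) * Fs (n + 1) (hh v) +
      K * (Fs (N + 1 + 1) (hh v) - 2 * Fs (n + 1) (hh v))) hm :=
    (hI1.const_mul _).add (hsubI.const_mul K)
  have hN2 := norm_integral_le_of_norm_le hgint (ae_of_all _ hB)
  have hval : ∫ v, ((ε / 2) * Fs (n + 1) (hh v) +
      K * (Fs (N + 1 + 1) (hh v) - 2 * Fs (n + 1) (hh v))) ∂hm =
      (ε / 2) * cs (n + 1) + K * (cs (N + 1 + 1) - 2 * cs (n + 1)) := by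
    rw [integral_add (hI1.const_mul _) (hsubI.const_mul K),
      integral_const_mul, integral_const_mul, integral_sub hI2 (hI1.const_mul 2),
      integral_const_mul]
    rfl
  rw [hval] at hN2
  have hratio : cs (N + 1 + 1) - 2 * cs (n + 1) = cs (n + 1) * (2 / (N + 1)) := by
    rw [hc1, hc2, hnn, hN1, hn]
    have : (0 : ℝ) ≤ N := Nat.cast_nonneg N
    rw [pow_succ, show N + 2 = (N + 1) + 1 by ring, pow_succ, pow_succ]
    field_simp
    ring
  rw [hratio] at hN2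
  calc (cs (n + 1))⁻¹ * ‖∫ v, (Fs (n + 1) (hh v) : ℂ) *
        (∫ g, φ g ∂(bm x) - ∫ g, φ (v * g) ∂(bm x)) ∂hm‖
      ≤ (cs (n + 1))⁻¹ * ((ε / 2) * cs (n + 1) + K * (cs (n + 1) * (2 / (N + 1)))) :=
        mul_le_mul_of_nonneg_left hN2 (inv_nonneg.mpr hcpos.le)
    _ = ε / 2 + K * (2 / (N + 1)) := by
        field_simp
    _ ≤ ε := by
        have hN0 : (0 : ℝ) ≤ N := Nat.cast_nonneg N
        have h1 : K * (2 / (N + 1)) ≤ ε / 2 := by
          rw [← mul_div_assoc, div_le_iff₀ (by positivity)]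
          rw [div_lt_iff₀ hε] at hN
          nlinarith
        linarith

end

end Pool.Agent.W653.BA
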